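import Pool.Agent.Helper56.RZ.GoalsD

/-!
# Project RZ: packet AR (average of the return sets over the centre)
-/

set_option autoImplicit false

open Set Filter Topology MeasureTheory

open Pool.Agent.Helper56.RZ

open scoped ContDiff Pointwise

namespace Pool.Agent.Helper16.RZ

section prep
variable {N K : ℕ} {M : Set (E K)} {p : Fin 3 → End N}

theorem q_cont (d : Tw N p) : Continuous d.q := by
  have h1 : Continuous (fun z => d.wc z) := d.wc.continuous
  have h2 : Continuous (fun z => d.wu z) := d.wu.continuous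
  have h3 : Continuous (fun z => d.R z) := d.R.continuous
  exact ((h1.pow 2).add (h2.pow 2)).add (h3.norm.pow 2)

theorem q_neg (d : Tw N p) (z : E N) : d.q (-z) = d.q z := by
  unfold Tw.q
  rw [map_neg, map_neg, map_neg, norm_neg, neg_sq, neg_sq]

/-- the support in the chart -/
def Ty (d : Tw N p) (ρ : ℝ) (y : E N) : Set (E N) := {z | d.q (ρ⁻¹ • (z - y)) ≤ 1}

theorem Ty_symm (d : Tw N p) (ρ : ℝ) (y z : E N) : z ∈ Ty d ρ y ↔ y ∈ Ty d ρ z := by
  have h : d.q (ρ⁻¹ • (z - y)) = d.q (ρ⁻¹ • (y - z)) := by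
    rw [← q_neg d (ρ⁻¹ • (y - z)), ← smul_neg, neg_sub]
  change d.q (ρ⁻¹ • (z - y)) ≤ 1 ↔ d.q (ρ⁻¹ • (y - z)) ≤ 1
  rw [h]

theorem Ty_closed (d : Tw N p) (ρ : ℝ) (y : E N) : IsClosed (Ty d ρ y) := by
  have h : Continuous (fun z : E N => d.q (ρ⁻¹ • (z - y))) :=
    (q_cont d).comp ((continuous_id.sub continuous_const).const_smul ρ⁻¹)
  exact isClosed_le h continuous_const

theorem Bs_eq (c : Chart N K M) (d : Tw N p) (y : E N) {ρ : ℝ} (hρ : ρ ≠ 0) :
    Bs c d y ρ = c.ψ '' Ty d ρ y := by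
  ext x
  constructor
  · rintro ⟨s, hs, rfl⟩
    refine ⟨y + ρ • s, ?_, rfl⟩
    change d.q (ρ⁻¹ • (y + ρ • s - y)) ≤ 1
    rw [add_sub_cancel_left, smul_smul, inv_mul_cancel₀ hρ, one_smul]
    exact hs
  · rintro ⟨z, hz, rfl⟩
    refine ⟨ρ⁻¹ • (z - y), hz, ?_⟩
    rw [smul_smul, mul_inv_cancel₀ hρ, one_smul, add_sub_cancel]

theorem vol_Ty (d : Tw N p) (y : E N) {ρ : ℝ} (hρ : 0 < ρ) :
    volume (Ty d ρ y) = ENNReal.ofReal (ρ ^ N) * volume {z | d.q z ≤ 1} := by
  have h1 : Ty d ρ y = (fun z => -y + z) ⁻¹' (ρ • {z | d.q z ≤ 1}) := by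
    ext z
    rw [mem_preimage, mem_smul_set_iff_inv_smul_mem₀ hρ.ne']
    change d.q (ρ⁻¹ • (z - y)) ≤ 1 ↔ d.q (ρ⁻¹ • (-y + z)) ≤ 1
    rw [neg_add_eq_sub]
  rw [h1, measure_preimage_add, Measure.addHaar_smul, finrank_euclideanSpace_fin,
    abs_of_pos (pow_pos hρ N)]

end prep

theorem ar : StmtF1 → StmtAR := by
  intro hF1 N K M m c p hm hp d z0 hz0 hvol U hU hzU
  obtain ⟨-, hd⟩ := hF1 N p hp
  obtain ⟨-, -, -, -, -, -, -, cq, hcq, hq⟩ := hd d
  -- a bound for the support
  have hQ : ∀ s, d.q s ≤ 1 → ‖s‖ ≤ cq := by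
    intro s hs
    have h1 := (hq s).1
    have h2 : ‖s‖ ^ 2 ≤ cq ^ 2 := by nlinarith
    exact le_of_sq_le_sq h2 (by linarith)
  -- a good ball
  have hψat : ContDiffAt ℝ 1 c.ψ z0 :=
    (c.smoothψ.contDiffAt (c.openV.mem_nhds hz0)).of_le (by exact_mod_cast le_top)
  obtain ⟨L, t, ht, hL⟩ := hψat.exists_lipschitzOnWith
  have hnb : t ∩ c.V ∩ c.ψ ⁻¹' U ∈ 𝓝 z0 :=
    inter_mem (inter_mem ht (c.openV.mem_nhds hz0))
      (hψat.continuousAt.preimage_mem_nhds (hU.mem_nhds hzU))
  obtain ⟨r2, hr2, hball⟩ := Metric.nhds_basis_closedBall.mem_iff.1 hnb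
  set r : ℝ := r2 / 2 with hr
  have hr0 : 0 < r := by positivity
  set v : ENNReal := volume {z | d.q z ≤ 1} with hv
  have hvfin : v ≠ ⊤ := by
    have h1 : {z | d.q z ≤ 1} ⊆ Metric.closedBall (0 : E N) cq := by
      intro z hz
      rw [mem_closedBall_zero_iff]
      exact hQ z hz
    exact ((measure_mono h1).trans_lt measure_closedBall_lt_top).ne
  set C : ℝ := 1 + v.toReal * (volume (Metric.closedBall z0 r)).toReal + 2 * L * cq + v.toReal
    with hC
  have hv0 : 0 ≤ v.toReal := ENNReal.toReal_nonneg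
  have hb0 : 0 ≤ (volume (Metric.closedBall z0 r)).toReal := ENNReal.toReal_nonneg
  have hL0 : (0 : ℝ) ≤ L := L.2
  have hC1 : 1 ≤ C := by
    rw [hC]
    have := mul_nonneg hv0 hb0
    have : 0 ≤ 2 * (L : ℝ) * cq := by positivity
    linarith
  have hCv : v.toReal ≤ C := by
    rw [hC]
    have := mul_nonneg hv0 hb0
    have : 0 ≤ 2 * (L : ℝ) * cq := by positivity
    linarith
  have hCb : v.toReal * (volume (Metric.closedBall z0 r)).toReal ≤ C := by
    rw [hC]
    have : 0 ≤ 2 * (L : ℝ) * cq := by positivity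
    linarith
  have hCL : 2 * L * cq ≤ C := by
    rw [hC]
    have := mul_nonneg hv0 hb0
    linarith
  refine ⟨C, r, r / cq, hC1, hr0, by positivity, ?_⟩
  intro χ hχ hχ0 hχ1 hχs ρ hρ hρ0
  have hρc : ρ * cq ≤ r := by
    rw [le_div_iff₀ (by linarith)] at hρ0
    exact hρ0
  -- the sets in the chart
  set B2 : Set (E N) := Metric.closedBall z0 r2 with hB2
  have hB2t : B2 ⊆ t := fun z hz => (hball hz).1.1
  have hB2V : B2 ⊆ c.V := fun z hz => (hball hz).1.2
  have hB2U : ∀ z ∈ B2, c.ψ z ∈ U := fun z hz => (hball hz).2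
  have hTd : ∀ y z : E N, z ∈ Ty d ρ y → ‖z - y‖ ≤ ρ * cq := by
    intro y z hz
    have h1 := hQ _ hz
    rw [norm_smul, norm_inv, Real.norm_of_nonneg hρ.le, inv_mul_le_iff₀ hρ] at h1
    exact h1
  have hTB : ∀ y ∈ Metric.closedBall z0 r, Ty d ρ y ⊆ B2 := by
    intro y hy z hz
    rw [hB2, Metric.mem_closedBall, dist_eq_norm]
    rw [Metric.mem_closedBall, dist_eq_norm] at hy
    have h1 := hTd y z hz
    calc ‖z - z0‖ = ‖(z - y) + (y - z0)‖ := by rw [sub_add_sub_cancel]
      _ ≤ ‖z - y‖ + ‖y - z0‖ := norm_add_le _ _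
      _ ≤ r + r := by linarith
      _ = r2 := by rw [hr]; ring
  have hχc : HasCompactSupport χ :=
    HasCompactSupport.intro (isCompact_closedBall z0 r) (fun y hy => hχs y hy)
  have hχi : Integrable χ volume := hχ.integrable_of_hasCompactSupport hχc
  have hρN : (0 : ℝ) ≤ ρ ^ N := by positivity
  have e1 : (fun y => χ y * (m (Bs c d y ρ)).toReal) = fun y => χ y * (ρ ^ N * v.toReal) := by
    funext y
    by_cases hy : y ∈ Metric.closedBall z0 r
    · rw [Bs_eq c d y hρ.ne', hvol _ (Ty_closed d ρ y).measurableSet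
        ((hTB y hy).trans hB2V), vol_Ty d y hρ, ENNReal.toReal_mul, ENNReal.toReal_ofReal hρN]
    · rw [hχs y hy, zero_mul, zero_mul]
  have hχint : ∫ y, χ y ≤ (volume (Metric.closedBall z0 r)).toReal := by
    have h1 : ∫ y, χ y = ∫ y in Metric.closedBall z0 r, χ y :=
      (setIntegral_eq_integral_of_forall_compl_eq_zero (fun y hy => hχs y hy)).symm
    rw [h1]
    have h2 : ∫ y in Metric.closedBall z0 r, χ y ≤ ∫ y in Metric.closedBall z0 r, (1 : ℝ) := by
      apply setIntegral_mono hχi.integrableOn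
      · exact integrableOn_const measure_closedBall_lt_top.ne
      · intro y
        exact hχ1 y
    rw [setIntegral_const, smul_eq_mul, mul_one] at h2
    exact h2
  refine ⟨?_, ?_, ?_⟩
  · rw [e1]
    exact hχi.mul_const _
  · rw [e1, integral_mul_const]
    calc (∫ y, χ y) * (ρ ^ N * v.toReal)
        ≤ (volume (Metric.closedBall z0 r)).toReal * (ρ ^ N * v.toReal) :=
          mul_le_mul_of_nonneg_right hχint (by positivity)
      _ = (v.toReal * (volume (Metric.closedBall z0 r)).toReal) * ρ ^ N := by ring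
      _ ≤ C * ρ ^ N := mul_le_mul_of_nonneg_right hCb hρN
  intro g hg hgM
  -- the set of pairs
  have hψB : ContinuousOn c.ψ B2 := c.smoothψ.continuousOn.mono hB2V
  have hψM : MapsTo c.ψ B2 M := fun z hz => (c.mapsψ z (hB2V hz)).1
  have hgψ : ContinuousOn (fun z => g (c.ψ z)) B2 := hg.comp hψB hψM
  set P3 : Set (E N × E N × E N) := (Metric.closedBall z0 r ×ˢ (B2 ×ˢ B2)) ∩
    (({w | d.q (ρ⁻¹ • (w.2.1 - w.1)) ≤ 1} ∩ {w | d.q (ρ⁻¹ • (w.2.2 - w.1)) ≤ 1})) with hP3
  have hP3c : IsClosed P3 := by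
    apply IsClosed.inter
    · exact Metric.isClosed_closedBall.prod (Metric.isClosed_closedBall.prod
        Metric.isClosed_closedBall)
    · apply IsClosed.inter
      · exact isClosed_le ((q_cont d).comp
          (((continuous_fst.comp continuous_snd).sub continuous_fst).const_smul ρ⁻¹))
          continuous_const
      · exact isClosed_le ((q_cont d).comp
          (((continuous_snd.comp continuous_snd).sub continuous_fst).const_smul ρ⁻¹))
          continuous_const
  have hcont3 : ContinuousOn (fun w : E N × E N × E N => g (c.ψ w.2.1) - c.ψ w.2.2) P3 := by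
    apply ContinuousOn.sub
    · exact hgψ.comp (continuous_fst.comp continuous_snd).continuousOn
        (fun w hw => hw.1.2.1)
    · exact hψB.comp (continuous_snd.comp continuous_snd).continuousOn
        (fun w hw => hw.1.2.2)
  set K3 : Set (E N × E N × E N) :=
    P3 ∩ (fun w : E N × E N × E N => g (c.ψ w.2.1) - c.ψ w.2.2) ⁻¹' {0} with hK3
  have hK3c : IsClosed K3 := hcont3.preimage_isClosed_of_isClosed hP3c isClosed_singleton
  have hK3k : IsCompact K3 := by
    apply IsCompact.of_isClosed_subset _ hK3c (fun w hw => hw.1.1)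
    exact (isCompact_closedBall z0 r).prod ((isCompact_closedBall z0 r2).prod
      (isCompact_closedBall z0 r2))
  set S : Set (E N × E N) := (fun w : E N × E N × E N => (w.1, w.2.1)) '' K3 with hS
  have hSk : IsCompact S := hK3k.image (by fun_prop)
  have hSm : MeasurableSet S := hSk.isClosed.measurableSet
  have hmemS : ∀ y z, (y, z) ∈ S ↔ y ∈ Metric.closedBall z0 r ∧ z ∈ Ty d ρ y ∧
      g (c.ψ z) ∈ Bs c d y ρ := by
    intro y z
    constructor
    · rintro ⟨⟨y', z', z''⟩, hw, he⟩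
      simp only [Prod.mk.injEq] at he
      obtain ⟨rfl, rfl⟩ := he
      obtain ⟨⟨⟨h1, h2, h3⟩, h4, h5⟩, h6⟩ := hw
      refine ⟨h1, h4, ?_⟩
      rw [Bs_eq c d _ hρ.ne']
      exact ⟨z'', h5, (sub_eq_zero.1 h6).symm⟩
    · rintro ⟨h1, h2, h3⟩
      rw [Bs_eq c d _ hρ.ne'] at h3
      obtain ⟨z', hz', he⟩ := h3
      refine ⟨(y, z, z'), ⟨⟨⟨h1, hTB y h1 h2, hTB y h1 hz'⟩, h2, hz'⟩, ?_⟩, rfl⟩
      change g (c.ψ z) - c.ψ z' = 0
      rw [he, sub_self]
  have hsec : ∀ y ∈ Metric.closedBall z0 r,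
      m {x | x ∈ Bs c d y ρ ∧ g x ∈ Bs c d y ρ} = volume (Prod.mk y ⁻¹' S) := by
    intro y hy
    rw [← hvol _ (measurable_prodMk_left hSm) (fun z hz => hB2V (hTB y hy ((hmemS y z).1 hz).2.1))]
    congr 1
    ext x
    constructor
    · rintro ⟨h1, h2⟩
      rw [Bs_eq c d _ hρ.ne'] at h1
      obtain ⟨z, hz, rfl⟩ := h1
      exact ⟨z, (hmemS y z).2 ⟨hy, hz, h2⟩, rfl⟩
    · rintro ⟨z, hz, rfl⟩
      obtain ⟨-, h2, h3⟩ := (hmemS y z).1 hz
      refine ⟨?_, h3⟩
      rw [Bs_eq c d _ hρ.ne']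
      exact ⟨z, h2, rfl⟩
  have e2 : (fun y => χ y * (m {x | x ∈ Bs c d y ρ ∧ g x ∈ Bs c d y ρ}).toReal) =
      fun y => χ y * (volume (Prod.mk y ⁻¹' S)).toReal := by
    funext y
    by_cases hy : y ∈ Metric.closedBall z0 r
    · rw [hsec y hy]
    · rw [hχs y hy, zero_mul, zero_mul]
  set Ds : Set (E K) := {x | x ∈ M ∩ U ∧ ‖g x - x‖ ≤ C * ρ} with hDs
  set Dz : Set (E N) := B2 ∩ (fun z => ‖g (c.ψ z) - c.ψ z‖) ⁻¹' Iic (C * ρ) with hDz
  have hDzm : MeasurableSet Dz := by
    have h1 : ContinuousOn (fun z => ‖g (c.ψ z) - c.ψ z‖) B2 := (hgψ.sub hψB).norm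
    exact (h1.preimage_isClosed_of_isClosed Metric.isClosed_closedBall isClosed_Iic).measurableSet
  have hDzD : volume Dz ≤ m Ds := by
    rw [← hvol Dz hDzm (fun z hz => hB2V hz.1)]
    apply measure_mono
    rintro x ⟨z, ⟨h1, h2⟩, rfl⟩
    exact ⟨⟨hψM h1, hB2U z h1⟩, h2⟩
  set a : ENNReal := ENNReal.ofReal (ρ ^ N) * v with ha
  have hafin : a ≠ ⊤ := ENNReal.mul_ne_top ENNReal.ofReal_ne_top hvfin
  have hprod : (volume.prod volume : Measure (E N × E N)) S ≤ a * m Ds := by
    rw [Measure.prod_apply_symm hSm]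
    calc ∫⁻ z, volume ((fun y => (y, z)) ⁻¹' S) ≤ ∫⁻ z, Dz.indicator (fun _ => a) z := by
          apply lintegral_mono
          intro z
          by_cases hz : z ∈ Dz
          · rw [indicator_of_mem hz, ha, ← vol_Ty d z hρ]
            apply measure_mono
            intro y hy
            exact (Ty_symm d ρ y z).1 ((hmemS y z).1 hy).2.1
          · rw [indicator_of_notMem hz]
            have h1 : (fun y => (y, z)) ⁻¹' S = ∅ := by
              rw [eq_empty_iff_forall_notMem]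
              intro y hy
              obtain ⟨h2, h3, h4⟩ := (hmemS y z).1 hy
              apply hz
              refine ⟨hTB y h2 h3, ?_⟩
              rw [Bs_eq c d _ hρ.ne'] at h4
              obtain ⟨z', hz', he⟩ := h4
              change ‖g (c.ψ z) - c.ψ z‖ ≤ C * ρ
              rw [← he]
              have h5 := hL.norm_sub_le (hB2t (hTB y h2 hz')) (hB2t (hTB y h2 h3))
              have h6 : ‖z' - z‖ ≤ 2 * (ρ * cq) := by
                calc ‖z' - z‖ = ‖(z' - y) - (z - y)‖ := by rw [sub_sub_sub_cancel_right]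
                  _ ≤ ‖z' - y‖ + ‖z - y‖ := norm_sub_le _ _
                  _ ≤ 2 * (ρ * cq) := by linarith [hTd y _ hz', hTd y z h3]
              calc ‖c.ψ z' - c.ψ z‖ ≤ L * ‖z' - z‖ := h5
                _ ≤ L * (2 * (ρ * cq)) := mul_le_mul_of_nonneg_left h6 hL0
                _ = (2 * L * cq) * ρ := by ring
                _ ≤ C * ρ := mul_le_mul_of_nonneg_right hCL hρ.le
            change volume ((fun y => (y, z)) ⁻¹' S) ≤ 0
            rw [h1, measure_empty]
      _ = a * volume Dz := lintegral_indicator_const hDzm a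
      _ ≤ a * m Ds := by gcongr
  have hmfin : m Ds ≠ ⊤ := ((measure_mono (subset_univ Ds)).trans_lt
    (lt_top_iff_ne_top.2 hm.finite)).ne
  have hSfin : (volume.prod volume : Measure (E N × E N)) S ≠ ⊤ :=
    (hprod.trans_lt (ENNReal.mul_lt_top (lt_top_iff_ne_top.2 hafin)
      (lt_top_iff_ne_top.2 hmfin))).ne
  have hFm : Measurable (fun y => volume (Prod.mk y ⁻¹' S)) := measurable_measure_prodMk_left hSm
  have hFl : ∫⁻ y, volume (Prod.mk y ⁻¹' S) = (volume.prod volume : Measure (E N × E N)) S :=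
    (Measure.prod_apply hSm).symm
  have hFi : Integrable (fun y => (volume (Prod.mk y ⁻¹' S)).toReal) volume :=
    integrable_toReal_of_lintegral_ne_top hFm.aemeasurable (by rw [hFl]; exact hSfin)
  have hprodi : Integrable (fun y => χ y * (volume (Prod.mk y ⁻¹' S)).toReal) volume := by
    refine hFi.mono' ((hχ.measurable.mul hFm.ennreal_toReal).aestronglyMeasurable) ?_
    refine Eventually.of_forall fun y => ?_
    rw [Real.norm_of_nonneg (mul_nonneg (hχ0 y) ENNReal.toReal_nonneg)]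
    calc χ y * (volume (Prod.mk y ⁻¹' S)).toReal ≤ 1 * (volume (Prod.mk y ⁻¹' S)).toReal :=
          mul_le_mul_of_nonneg_right (hχ1 y) ENNReal.toReal_nonneg
      _ = _ := one_mul _
  rw [e2]
  refine ⟨hprodi, ?_⟩
  calc ∫ y, χ y * (volume (Prod.mk y ⁻¹' S)).toReal
      ≤ ∫ y, (volume (Prod.mk y ⁻¹' S)).toReal := by
        apply integral_mono hprodi hFi
        intro y
        calc χ y * (volume (Prod.mk y ⁻¹' S)).toReal ≤ 1 * (volume (Prod.mk y ⁻¹' S)).toReal :=
              mul_le_mul_of_nonneg_right (hχ1 y) ENNReal.toReal_nonneg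
          _ = _ := one_mul _
    _ = ((volume.prod volume : Measure (E N × E N)) S).toReal := by
        rw [integral_toReal hFm.aemeasurable, hFl]
        exact ae_lt_top hFm (by rw [hFl]; exact hSfin)
    _ ≤ (a * m Ds).toReal :=
        ENNReal.toReal_mono (ENNReal.mul_ne_top hafin hmfin) hprod
    _ = (ρ ^ N * v.toReal) * (m Ds).toReal := by
        rw [ENNReal.toReal_mul, ha, ENNReal.toReal_mul, ENNReal.toReal_ofReal hρN]
    _ ≤ C * ρ ^ N * (m Ds).toReal := by
        apply mul_le_mul_of_nonneg_right _ ENNReal.toReal_nonneg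
        rw [mul_comm C]
        exact mul_le_mul_of_nonneg_left hCv hρN

end Pool.Agent.Helper16.RZ
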