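import Pool.Agent.Helper56.RZ.GoalsC

/-!
# Project RZ2, packet LP: `Lin` for powers
-/

set_option autoImplicit false

open Set Filter Topology

namespace Pool.Agent.Helper16.RZ

open Pool.Agent.Helper56.RZ

/-- uniformly differentiable, with bounded Lipschitz derivative; the map is Lipschitz -/
structure UD {K : ℕ} {M : Set (E K)} (f : M → M) (A : M → End K) : Prop where
  lin : ∀ ε > 0, ∃ δ > 0, ∀ x y : M, ‖(y : E K) - x‖ ≤ δ →
    ‖(f y : E K) - f x - A x ((y : E K) - x)‖ ≤ ε * ‖(y : E K) - x‖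
  lip : ∃ L : ℝ, 0 ≤ L ∧ ∀ x y : M, ‖A x - A y‖ ≤ L * ‖(x : E K) - y‖
  bdd : ∃ R : ℝ, 0 ≤ R ∧ ∀ x : M, ‖A x‖ ≤ R
  flip : ∃ L : ℝ, 0 ≤ L ∧ ∀ x y : M, ‖(f x : E K) - f y‖ ≤ L * ‖(x : E K) - y‖

variable {K : ℕ} {M : Set (E K)}

lemma UD.comp {f g : M → M} {A B : M → End K} (hf : UD f A) (hg : UD g B) :
    UD (g ∘ f) (fun x => B (f x) * A x) := by
  obtain ⟨LA, hLA0, hLA⟩ := hf.lip
  obtain ⟨RA, hRA0, hRA⟩ := hf.bdd
  obtain ⟨Lf, hLf0, hLf⟩ := hf.flip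
  obtain ⟨LB, hLB0, hLB⟩ := hg.lip
  obtain ⟨RB, hRB0, hRB⟩ := hg.bdd
  obtain ⟨Lg, hLg0, hLg⟩ := hg.flip
  refine ⟨?_, ?_, ?_, ?_⟩
  · intro ε hε
    have hden : 0 < RB + Lf + 1 := by linarith
    have hε' : 0 < ε / (RB + Lf + 1) := div_pos hε hden
    obtain ⟨δ1, hδ1, h1⟩ := hf.lin _ hε'
    obtain ⟨δ2, hδ2, h2⟩ := hg.lin _ hε'
    refine ⟨min δ1 (δ2 / (Lf + 1)), lt_min hδ1 (div_pos hδ2 (by linarith)), ?_⟩
    intro x y hxy
    have hxy1 := h1 x y (hxy.trans (min_le_left _ _))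
    have hd : ‖(f y : E K) - f x‖ ≤ δ2 := by
      have h3 := hLf y x
      have h4 : ‖(y : E K) - x‖ ≤ δ2 / (Lf + 1) := hxy.trans (min_le_right _ _)
      rw [le_div_iff₀ (by linarith)] at h4
      nlinarith [norm_nonneg ((y : E K) - x)]
    have hxy2 := h2 (f x) (f y) hd
    have heq : ((g ∘ f) y : E K) - (g ∘ f) x - (B (f x) * A x) ((y : E K) - x) =
        ((g (f y) : E K) - g (f x) - B (f x) ((f y : E K) - f x)) +
          B (f x) ((f y : E K) - f x - A x ((y : E K) - x)) := by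
      rw [ContinuousLinearMap.mul_apply, map_sub (B (f x)) ((f y : E K) - f x)]
      simp only [Function.comp_apply]
      abel
    rw [heq]
    refine (norm_add_le _ _).trans ?_
    have h5 : ‖B (f x) ((f y : E K) - f x - A x ((y : E K) - x))‖ ≤
        RB * (ε / (RB + Lf + 1) * ‖(y : E K) - x‖) :=
      ((B (f x)).le_opNorm _).trans
        (mul_le_mul (hRB _) hxy1 (norm_nonneg _) hRB0)
    have h6 : ‖(g (f y) : E K) - g (f x) - B (f x) ((f y : E K) - f x)‖ ≤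
        ε / (RB + Lf + 1) * (Lf * ‖(y : E K) - x‖) :=
      hxy2.trans (mul_le_mul_of_nonneg_left (hLf y x) hε'.le)
    have h7 : ε / (RB + Lf + 1) * (Lf * ‖(y : E K) - x‖) +
        RB * (ε / (RB + Lf + 1) * ‖(y : E K) - x‖) ≤ ε * ‖(y : E K) - x‖ := by
      have h8 : ε / (RB + Lf + 1) * (Lf * ‖(y : E K) - x‖) +
        RB * (ε / (RB + Lf + 1) * ‖(y : E K) - x‖) =
          (ε / (RB + Lf + 1) * (RB + Lf)) * ‖(y : E K) - x‖ := by ring
      rw [h8]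
      refine mul_le_mul_of_nonneg_right ?_ (norm_nonneg _)
      have h9 : ε / (RB + Lf + 1) * (RB + Lf + 1) = ε := div_mul_cancel₀ _ hden.ne'
      nlinarith
    linarith
  · refine ⟨LB * Lf * RA + RB * LA, by positivity, ?_⟩
    intro x y
    have heq : B (f x) * A x - B (f y) * A y = (B (f x) - B (f y)) * A x + B (f y) * (A x - A y) := by
      rw [sub_mul, mul_sub]; abel
    rw [heq]
    refine (norm_add_le _ _).trans ?_
    have h1 : ‖(B (f x) - B (f y)) * A x‖ ≤ (LB * (Lf * ‖(x : E K) - y‖)) * RA :=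
      (norm_mul_le _ _).trans (mul_le_mul ((hLB _ _).trans
        (mul_le_mul_of_nonneg_left (hLf _ _) hLB0)) (hRA _) (norm_nonneg _) (by positivity))
    have h2 : ‖B (f y) * (A x - A y)‖ ≤ RB * (LA * ‖(x : E K) - y‖) :=
      (norm_mul_le _ _).trans (mul_le_mul (hRB _) (hLA _ _) (norm_nonneg _) hRB0)
    calc _ ≤ (LB * (Lf * ‖(x : E K) - y‖)) * RA + RB * (LA * ‖(x : E K) - y‖) := add_le_add h1 h2
      _ = _ := by ring
  · refine ⟨RB * RA, by positivity, ?_⟩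
    intro x
    exact (norm_mul_le _ _).trans (mul_le_mul (hRB _) (hRA _) (norm_nonneg _) hRB0)
  · refine ⟨Lg * Lf, by positivity, ?_⟩
    intro x y
    refine (hLg _ _).trans ?_
    rw [mul_assoc]
    exact mul_le_mul_of_nonneg_left (hLf _ _) hLg0

lemma bdd_of_cont (hM : IsCompact M) {A : M → End K} (hA : Continuous A) :
    ∃ R : ℝ, 0 ≤ R ∧ ∀ x : M, ‖A x‖ ≤ R := by
  have : CompactSpace M := isCompact_iff_compactSpace.1 hM
  obtain ⟨R, hR⟩ := isCompact_univ.exists_bound_of_continuousOn hA.continuousOn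
  exact ⟨max R 0, le_max_right _ _, fun x => (hR x (mem_univ x)).trans (le_max_left _ _)⟩

lemma ud_one (hM : IsCompact M) (C : Coc M K) (hC : Lin C) : UD C.f C.A := by
  obtain ⟨L, hL0, hL⟩ := hC.lip
  obtain ⟨R, hR0, hR⟩ := bdd_of_cont hM C.contA
  refine ⟨hC.lin, ⟨L, hL0, fun x y => (hL x y).1⟩, ⟨R, hR0, hR⟩, ?_⟩
  obtain ⟨δ, hδ, h⟩ := hC.lin 1 one_pos
  obtain ⟨B, hB⟩ := hM.isBounded.exists_norm_le
  have hB0 : ∀ x : M, ‖(x : E K)‖ ≤ |B| := fun x => (hB x x.2).trans (le_abs_self B)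
  refine ⟨(R + 1) + 2 * |B| / δ, by positivity, ?_⟩
  intro x y
  by_cases hxy : ‖(x : E K) - y‖ ≤ δ
  · have h1 := h y x hxy
    have h2 : ‖C.A y ((x : E K) - y)‖ ≤ R * ‖(x : E K) - y‖ :=
      ((C.A y).le_opNorm _).trans (mul_le_mul_of_nonneg_right (hR _) (norm_nonneg _))
    have h3 : (C.f x : E K) - C.f y =
      ((C.f x : E K) - C.f y - C.A y ((x : E K) - y)) + C.A y ((x : E K) - y) := by abel
    rw [h3]
    refine (norm_add_le _ _).trans ?_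
    have h4 : 0 ≤ 2 * |B| / δ * ‖(x : E K) - y‖ := by positivity
    calc _ ≤ 1 * ‖(x : E K) - y‖ + R * ‖(x : E K) - y‖ := add_le_add h1 h2
      _ ≤ _ := by nlinarith
  · push Not at hxy
    have h1 : ‖(C.f x : E K) - C.f y‖ ≤ 2 * |B| := by
      refine (norm_sub_le _ _).trans ?_
      have := hB0 (C.f x)
      have := hB0 (C.f y)
      linarith
    have h2 : 2 * |B| ≤ 2 * |B| / δ * ‖(x : E K) - y‖ := by
      rw [div_mul_eq_mul_div, le_div_iff₀ hδ]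
      exact mul_le_mul_of_nonneg_left hxy.le (by positivity)
    have h3 : 0 ≤ (R + 1) * ‖(x : E K) - y‖ := by positivity
    calc _ ≤ 2 * |B| := h1
      _ ≤ 2 * |B| / δ * ‖(x : E K) - y‖ := h2
      _ ≤ _ := by nlinarith

lemma lin_inv (C : Coc M K) (hC : Lin C) : Lin C.inv := by
  refine ⟨hC.lin', hC.lin, ?_⟩
  obtain ⟨L, hL0, hL⟩ := hC.lip
  exact ⟨L, hL0, fun x y => ⟨(hL x y).2.1, (hL x y).1, (hL x y).2.2⟩⟩

lemma ud_zero (hM : IsCompact M) (C : Coc M K) (hC : Lin C) : UD (id : M → M) C.T := by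
  obtain ⟨L, hL0, hL⟩ := hC.lip
  obtain ⟨R, hR0, hR⟩ := bdd_of_cont hM C.contT
  refine ⟨?_, ⟨L, hL0, fun x y => (hL x y).2.2⟩, ⟨R, hR0, hR⟩, ⟨1, zero_le_one, fun x y => by simp⟩⟩
  obtain ⟨Lf, hLf0, hLf⟩ := (ud_one hM C hC).flip
  obtain ⟨RB, hRB0, hRB⟩ := bdd_of_cont hM C.contB
  intro ε hε
  have hden : 0 < RB + Lf + 1 := by linarith
  have hε' : 0 < ε / (RB + Lf + 1) := div_pos hε hden
  obtain ⟨δ1, hδ1, h1⟩ := hC.lin _ hε'
  obtain ⟨δ2, hδ2, h2⟩ := hC.lin' _ hε'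
  refine ⟨min δ1 (δ2 / (Lf + 1)), lt_min hδ1 (div_pos hδ2 (by linarith)), ?_⟩
  intro x y hxy
  have hxy1 := h1 x y (hxy.trans (min_le_left _ _))
  have hd : ‖(C.f y : E K) - C.f x‖ ≤ δ2 := by
    have h3 := hLf y x
    have h4 : ‖(y : E K) - x‖ ≤ δ2 / (Lf + 1) := hxy.trans (min_le_right _ _)
    rw [le_div_iff₀ (by linarith)] at h4
    nlinarith [norm_nonneg ((y : E K) - x)]
  have hxy2 := h2 (C.f x) (C.f y) hd
  rw [Homeomorph.symm_apply_apply, Homeomorph.symm_apply_apply] at hxy2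
  have hBA : C.B (C.f x) (C.A x ((y : E K) - x)) = C.T x ((y : E K) - x) := by
    rw [← ContinuousLinearMap.mul_apply, C.BA]
  have heq : ((id y : M) : E K) - (id x : M) - C.T x ((y : E K) - x) =
      ((y : E K) - x - C.B (C.f x) ((C.f y : E K) - C.f x)) +
        C.B (C.f x) ((C.f y : E K) - C.f x - C.A x ((y : E K) - x)) := by
    rw [map_sub (C.B (C.f x)) ((C.f y : E K) - C.f x), hBA]
    simp only [id_eq]
    abel
  rw [heq]
  refine (norm_add_le _ _).trans ?_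
  have h5 : ‖C.B (C.f x) ((C.f y : E K) - C.f x - C.A x ((y : E K) - x))‖ ≤
      RB * (ε / (RB + Lf + 1) * ‖(y : E K) - x‖) :=
    ((C.B (C.f x)).le_opNorm _).trans
      (mul_le_mul (hRB _) hxy1 (norm_nonneg _) hRB0)
  have h6 : ‖(y : E K) - x - C.B (C.f x) ((C.f y : E K) - C.f x)‖ ≤
      ε / (RB + Lf + 1) * (Lf * ‖(y : E K) - x‖) :=
    hxy2.trans (mul_le_mul_of_nonneg_left (hLf y x) hε'.le)
  have h7 : ε / (RB + Lf + 1) * (Lf * ‖(y : E K) - x‖) +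
      RB * (ε / (RB + Lf + 1) * ‖(y : E K) - x‖) ≤ ε * ‖(y : E K) - x‖ := by
    have h8 : ε / (RB + Lf + 1) * (Lf * ‖(y : E K) - x‖) +
      RB * (ε / (RB + Lf + 1) * ‖(y : E K) - x‖) =
        (ε / (RB + Lf + 1) * (RB + Lf)) * ‖(y : E K) - x‖ := by ring
    rw [h8]
    refine mul_le_mul_of_nonneg_right ?_ (norm_nonneg _)
    have h9 : ε / (RB + Lf + 1) * (RB + Lf + 1) = ε := div_mul_cancel₀ _ hden.ne'
    nlinarith
  linarith

lemma ud_iter (hM : IsCompact M) (C : Coc M K) (hC : Lin C) (m : ℕ) : UD (C.f^[m]) (C.An m) := by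
  induction m with
  | zero => exact ud_zero hM C hC
  | succ m ih =>
    have h := ih.comp (ud_one hM C hC)
    rw [Function.iterate_succ']
    exact h

theorem lp : StmtLP := by
  intro K M hM C D m hP hC
  have h1 := ud_iter hM C hC m
  have h2 := ud_iter hM C.inv (lin_inv C hC) m
  refine ⟨?_, ?_, ?_⟩
  · intro ε hε
    obtain ⟨δ, hδ, h⟩ := h1.lin ε hε
    refine ⟨δ, hδ, fun x y hxy => ?_⟩
    rw [hP.f, hP.f, hP.A]
    exact h x y hxy
  · intro ε hε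
    obtain ⟨δ, hδ, h⟩ := h2.lin ε hε
    refine ⟨δ, hδ, fun x y hxy => ?_⟩
    rw [hP.f', hP.f', hP.B]
    exact h x y hxy
  · obtain ⟨L1, hL10, hL1⟩ := h1.lip
    obtain ⟨L2, hL20, hL2⟩ := h2.lip
    obtain ⟨L3, hL30, hL3⟩ := hC.lip
    refine ⟨L1 + L2 + L3, by positivity, fun x y => ?_⟩
    have hn : 0 ≤ ‖(x : E K) - y‖ := norm_nonneg _
    rw [hP.A, hP.A, hP.B, hP.B, hP.T, hP.T]
    refine ⟨(hL1 x y).trans ?_, (hL2 x y).trans ?_, (hL3 x y).2.2.trans ?_⟩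
    · nlinarith
    · nlinarith
    · nlinarith

end Pool.Agent.Helper16.RZ
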