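import Pool.Agent.Helper56.RZ.GoalsF

/-!
# Project RZ5 (MP_f32c9c_an), packet VB5: the volume of small balls
-/

set_option autoImplicit false

open Set Filter Topology MeasureTheory

open scoped ContDiff NNReal ENNReal

namespace Pool.Agent.Helper16.RZ

open Pool.Agent.Helper56.RZ

/-- The estimate near a point. -/
theorem vb5_local {N K : ℕ} {M : Set (E K)} {m : Measure (E K)} (h : SmoothVolume N K M m)
    {x₀ : E K} (hx₀ : x₀ ∈ M) : ∃ t ∈ 𝓝[M] x₀, ∃ C : ℝ, 0 ≤ C ∧ ∀ x ∈ t, x ∈ M → ∀ r : ℝ, 0 < r →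
      (m {y | y ∈ M ∧ ‖y - x‖ ≤ r}).toReal ≤ C * r ^ N := by
  obtain ⟨c, hxW, hm⟩ := h.chart x₀ hx₀
  have hφ : ContDiffAt ℝ 1 c.φ x₀ :=
    (c.smoothφ.contDiffAt (c.openW.mem_nhds hxW)).of_le (by simp)
  obtain ⟨L, t, ht, hL⟩ := hφ.exists_lipschitzOnWith
  have hV : c.V ∈ 𝓝 (c.φ x₀) := c.openV.mem_nhds (c.mapsφ x₀ ⟨hx₀, hxW⟩)
  obtain ⟨ρ, hρ, hρV⟩ := Metric.nhds_basis_closedBall.mem_iff.1 hV
  obtain ⟨d, hd, hdt⟩ := Metric.mem_nhds_iff.1 (Filter.inter_mem ht (c.openW.mem_nhds hxW))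
  have hL0 : (0 : ℝ) ≤ L := L.2
  obtain ⟨δ, hδ, hδd, hδρ⟩ : ∃ δ : ℝ, 0 < δ ∧ 3 * δ ≤ d ∧ 2 * (L * δ) ≤ ρ := by
    refine ⟨min (d / 3) (ρ / (2 * (L + 1))), lt_min (by positivity) (by positivity), ?_, ?_⟩
    · have := min_le_left (d / 3) (ρ / (2 * ((L : ℝ) + 1)))
      linarith
    · have h1 := min_le_right (d / 3) (ρ / (2 * ((L : ℝ) + 1)))
      have h2 : (L : ℝ) * min (d / 3) (ρ / (2 * (L + 1))) ≤ L * (ρ / (2 * (L + 1))) :=
        mul_le_mul_of_nonneg_left h1 hL0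
      have h3 : (L : ℝ) * (ρ / (2 * (L + 1))) ≤ ρ / 2 := by
        rw [mul_div_assoc', div_le_div_iff₀ (by positivity) (by norm_num)]
        nlinarith
      linarith
  refine ⟨Metric.ball x₀ δ, mem_nhdsWithin_of_mem_nhds (Metric.ball_mem_nhds x₀ hδ),
    (L : ℝ) ^ N * (volume (Metric.ball (0 : E N) 1)).toReal + (m univ).toReal / δ ^ N,
    by positivity, ?_⟩
  intro x hx hxM r hr
  have hx' : dist x x₀ < δ := hx
  have hrN : 0 < r ^ N := by positivity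
  by_cases hrδ : r ≤ δ
  · have hxb : x ∈ t ∩ c.W := hdt (by rw [Metric.mem_ball]; linarith)
    have hx₀b : x₀ ∈ t ∩ c.W := hdt (Metric.mem_ball_self hd)
    have h1 : {y | y ∈ M ∧ ‖y - x‖ ≤ r} ⊆ c.ψ '' Metric.closedBall (c.φ x) (L * r) := by
      rintro y ⟨hyM, hyx⟩
      rw [← dist_eq_norm] at hyx
      have hyb : y ∈ t ∩ c.W := hdt (by
        rw [Metric.mem_ball]
        have := dist_triangle y x x₀
        linarith)
      refine ⟨c.φ y, ?_, c.right y ⟨hyM, hyb.2⟩⟩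
      rw [Metric.mem_closedBall]
      exact (hL.dist_le_mul y hyb.1 x hxb.1).trans (mul_le_mul_of_nonneg_left hyx hL0)
    have h2 : Metric.closedBall (c.φ x) (L * r) ⊆ c.V := by
      refine subset_trans ?_ hρV
      refine Metric.closedBall_subset_closedBall' ?_
      have h3 := hL.dist_le_mul x hxb.1 x₀ hx₀b.1
      have h4 : (L : ℝ) * dist x x₀ ≤ L * δ := mul_le_mul_of_nonneg_left hx'.le hL0
      have h5 : (L : ℝ) * r ≤ L * δ := mul_le_mul_of_nonneg_left hrδ hL0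
      linarith
    have h3 : m {y | y ∈ M ∧ ‖y - x‖ ≤ r} ≤
        ENNReal.ofReal ((L * r) ^ N) * volume (Metric.ball (0 : E N) 1) := by
      refine (measure_mono h1).trans ?_
      rw [hm _ measurableSet_closedBall h2,
        Measure.addHaar_closedBall volume _ (by positivity : (0 : ℝ) ≤ L * r),
        finrank_euclideanSpace_fin]
    have hfin : volume (Metric.ball (0 : E N) 1) ≠ ⊤ := measure_ball_lt_top.ne
    have h4 := ENNReal.toReal_mono (ENNReal.mul_ne_top ENNReal.ofReal_ne_top hfin) h3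
    rw [ENNReal.toReal_mul, ENNReal.toReal_ofReal (by positivity), mul_pow] at h4
    have h5 : 0 ≤ (m univ).toReal / δ ^ N * r ^ N := by positivity
    calc (m {y | y ∈ M ∧ ‖y - x‖ ≤ r}).toReal
        ≤ (L : ℝ) ^ N * r ^ N * (volume (Metric.ball (0 : E N) 1)).toReal := h4
      _ ≤ _ := by
          rw [add_mul]
          linarith
  · push Not at hrδ
    have h1 : (m {y | y ∈ M ∧ ‖y - x‖ ≤ r}).toReal ≤ (m univ).toReal :=
      ENNReal.toReal_mono h.finite (measure_mono (subset_univ _))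
    have h2 : (m univ).toReal ≤ (m univ).toReal / δ ^ N * r ^ N := by
      rw [div_mul_eq_mul_div, le_div_iff₀ (by positivity)]
      exact mul_le_mul_of_nonneg_left (pow_le_pow_left₀ hδ.le hrδ.le N) ENNReal.toReal_nonneg
    have h5 : 0 ≤ (L : ℝ) ^ N * (volume (Metric.ball (0 : E N) 1)).toReal * r ^ N := by
      positivity
    rw [add_mul]
    linarith

theorem vb5 : StmtVB5 := by
  intro N K M m h
  have key : ∃ C : ℝ, 0 ≤ C ∧ ∀ x ∈ M, x ∈ M → ∀ r : ℝ, 0 < r →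
      (m {y | y ∈ M ∧ ‖y - x‖ ≤ r}).toReal ≤ C * r ^ N := by
    refine h.compact.induction_on (p := fun s => ∃ C : ℝ, 0 ≤ C ∧ ∀ x ∈ s, x ∈ M →
      ∀ r : ℝ, 0 < r → (m {y | y ∈ M ∧ ‖y - x‖ ≤ r}).toReal ≤ C * r ^ N) ?_ ?_ ?_ ?_
    · exact ⟨0, le_rfl, fun x hx => absurd hx (notMem_empty x)⟩
    · rintro s t hst ⟨C, hC, hC'⟩
      exact ⟨C, hC, fun x hx => hC' x (hst hx)⟩
    · rintro s t ⟨C, hC, hC'⟩ ⟨D, hD, hD'⟩
      refine ⟨C + D, add_nonneg hC hD, ?_⟩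
      intro x hx hxM r hr
      have hrN : 0 < r ^ N := by positivity
      rcases hx with hx | hx
      · have := hC' x hx hxM r hr
        nlinarith
      · have := hD' x hx hxM r hr
        nlinarith
    · intro x hx
      exact vb5_local h hx
  obtain ⟨C, hC, hC'⟩ := key
  exact ⟨C, hC, fun x hx => hC' x hx hx⟩

end Pool.Agent.Helper16.RZ
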